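import Mathlib
import Pool.Agent.Helper635.Colour

set_option autoImplicit false

namespace Pool.Agent.Results.MP_53fe41_co.LocalLemma

open Pool.Agent.Helper635.Colour

/-- The subcube of `{0,1}^n` described by a word: coordinates with value `some b` are fixed to `b`,
coordinates with value `none` vary freely. -/
def cube {n : ℕ} (s : Fin n → Option Bool) : Set (Fin n → Bool) :=
  {x | ∀ (i : Fin n) (b : Bool), s i = some b → x i = b}

/-- Dimension of the subcube: the number of free coordinates. -/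
def dim {n : ℕ} (s : Fin n → Option Bool) : ℕ :=
  (Finset.univ.filter (fun i => s i = none)).card

/-- `χ` colours the copies of `Q_l` in `Q_n` with `k` colours so that every copy of `Q_d`
contains copies of `Q_l` of every colour. -/
def Polychromatic (l n d k : ℕ) (χ : {s : Fin n → Option Bool // dim s = l} → Fin k) : Prop :=
  ∀ C : Fin n → Option Bool, dim C = d → ∀ j : Fin k,
    ∃ D : {s : Fin n → Option Bool // dim s = l}, cube D.1 ⊆ cube C ∧ χ D = j

/-- `pc^(l)(n,d)`: the largest number of colours of a `(d,l)`-polychromatic colouring of `Q_n`. -/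
noncomputable def pc (l n d : ℕ) : ℕ :=
  sSup {k : ℕ | ∃ χ : {s : Fin n → Option Bool // dim s = l} → Fin k, Polychromatic l n d k χ}

/-- there is a word with `d` free coordinates when `d ≤ n` -/
lemma exists_word (n d : ℕ) (h : d ≤ n) : ∃ C : Fin n → Option Bool, dim C = d := by
  obtain ⟨P, -, hP⟩ := Finset.exists_subset_card_eq
    (show d ≤ (Finset.univ : Finset (Fin n)).card by simpa using h)
  refine ⟨fun i => if i ∈ P then none else some false, ?_⟩
  rw [dim, ← hP]
  congr 1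
  ext i
  by_cases h : i ∈ P <;> simp [h]

lemma bdd (l n d : ℕ) (h : d ≤ n) :
    BddAbove {k : ℕ | ∃ χ : {s : Fin n → Option Bool // dim s = l} → Fin k,
      Polychromatic l n d k χ} := by
  refine ⟨Fintype.card {s : Fin n → Option Bool // dim s = l}, ?_⟩
  rintro k ⟨χ, hχ⟩
  obtain ⟨C, hC⟩ := exists_word n d h
  have hsurj : Function.Surjective χ := by
    intro j
    obtain ⟨D, -, hD⟩ := hχ C hC j
    exact ⟨D, hD⟩
  have := Fintype.card_le_of_surjective χ hsurj
  simpa using this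

/-- For all `l < d < n`:
`pc^(l)(n,d) ≥ ⌊ C(d+1,l+1) / (2 + 3 log C(d+1,l+1) + (d-l) log (4(d-l+1))) ⌋`. -/
theorem result (l d n : ℕ) (hld : l < d) (hdn : d < n) :
    ⌊((d + 1).choose (l + 1) : ℝ) / (2 + 3 * Real.log ((d + 1).choose (l + 1)) +
      ((d : ℝ) - l) * Real.log (4 * ((d : ℝ) - l + 1)))⌋₊ ≤ pc l n d := by
  obtain ⟨c, rfl⟩ : ∃ c, d = l + c := ⟨d - l, by omega⟩
  have hsymm : (l + c + 1).choose (l + 1) = (l + c + 1).choose c := by
    rw [← Nat.choose_symm (show c ≤ l + c + 1 by omega)]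
    congr 1
    omega
  have hcast : ((l + c : ℕ) : ℝ) - l = c := by push_cast; ring
  rw [hsymm, hcast]
  set M : ℕ := (l + c + 1).choose c with hM
  have hMpos : 1 ≤ M := Nat.choose_pos (by omega)
  have hM1 : (1 : ℝ) ≤ M := by exact_mod_cast hMpos
  have hlogM : 0 ≤ Real.log M := Real.log_nonneg hM1
  have hc0 : (0 : ℝ) ≤ c := Nat.cast_nonneg c
  have hlogc : 0 ≤ Real.log (4 * ((c : ℝ) + 1)) := Real.log_nonneg (by linarith)
  have hX : 0 ≤ (c : ℝ) * Real.log (4 * ((c : ℝ) + 1)) := mul_nonneg hc0 hlogc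
  set W : ℝ := 2 + 3 * Real.log M + (c : ℝ) * Real.log (4 * ((c : ℝ) + 1)) with hW
  have hWpos : 0 < W := by rw [hW]; linarith
  set k : ℕ := ⌊(M : ℝ) / W⌋₊ with hk
  rcases Nat.eq_zero_or_pos k with h0 | hkpos
  · rw [h0]; exact Nat.zero_le _
  have hkW : (k : ℝ) * W ≤ M := by
    have h1 : (k : ℝ) ≤ (M : ℝ) / W := Nat.floor_le (by positivity)
    rwa [le_div_iff₀ hWpos] at h1
  obtain ⟨χ, hχ⟩ := word_colouring l c k n hkpos hkW
  refine le_csSup (bdd l n (l + c) hdn.le) ⟨fun D => χ D.1, ?_⟩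
  intro C hC j
  obtain ⟨D, hD1, hD2, hD3⟩ := hχ C hC j
  refine ⟨⟨D, hD1⟩, ?_, hD3⟩
  intro x hx i b hib
  exact hx i b (hD2 i b hib)

end Pool.Agent.Results.MP_53fe41_co.LocalLemma
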